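import Pool.Agent.H24.CL.Targets

/-!
# Row TP of the board clv (helper91): the points with a too high descendant are rare
-/

set_option autoImplicit false

open Finset MeasureTheory

namespace Pool.Agent.H91.CLV

open Pool.Agent.H24.CL

theorem cont_u (k N : ℕ) : Continuous (u N : X k → ℂ) := by
  have he : Continuous e := by
    unfold e
    exact continuous_subtype_val.comp AddCircle.continuous_toCircle
  have hP : ∀ n : ℕ, Continuous (fun a : X k => P a n) := by
    intro n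
    unfold P
    exact continuous_finsetSum _ fun i _ => (continuous_apply i).nsmul (n ^ (i.val + 1))
  have hf : Continuous (fun a : X k => f N a) := by
    unfold f
    exact continuous_finsetSum _ fun n _ => he.comp (hP n)
  have : (u N : X k → ℂ) = fun a => f N a / (N : ℂ) := by
    funext a
    rfl
  rw [this]
  exact hf.div_const _

theorem ch_mp (hMP : T_MP) (k q : ℕ) (hq : 1 ≤ q) (c : List ℕ) :
    MeasurePreserving (Ch q c : X k → X k) volume volume := by
  induction c with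
  | nil => exact MeasurePreserving.id volume
  | cons b c ih =>
    have h := ih.comp (hMP k q b hq).2.2
    exact h

theorem vol_ch (hMP : T_MP) (k q N : ℕ) (hq : 1 ≤ q) (c : List ℕ) (t : ℝ) :
    volume.real {a : X k | t ≤ ‖u N (Ch q c a)‖} = volume.real {a : X k | t ≤ ‖u N a‖} := by
  have h := ch_mp hMP k q hq c
  have hm : MeasurableSet {a : X k | t ≤ ‖u N a‖} :=
    (isClosed_le continuous_const (cont_u k N).norm).measurableSet
  have h2 := h.measure_preimage hm.nullMeasurableSet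
  unfold Measure.real
  rw [← h2]
  rfl

theorem pf_TP (hTA : T_TA) (hMP : T_MP) : T_TP := by
  intro k m D hk hm
  have hK : 6 ≤ KN k := by
    unfold KN
    have : 3 * 4 ≤ k * (k + 1) := Nat.mul_le_mul hk (by omega)
    omega
  set θ : ℝ := 1 / (|D| + 2 * m + 3) with hθ
  have hden : (0 : ℝ) < |D| + 2 * m + 3 := by positivity
  have hθ0 : 0 < θ := by rw [hθ]; positivity
  have hθ1 : θ ≤ 1 := by
    rw [hθ, div_le_one hden]
    have := abs_nonneg D
    have : (0 : ℝ) ≤ m := Nat.cast_nonneg m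
    linarith
  obtain ⟨C, hC1, hC⟩ := hTA k θ hk hθ0 hθ1
  refine ⟨⌈((m : ℝ) + 1) * C⌉₊ + 1, ?_⟩
  intro q L t₀ hq hL ht₀ hup
  have hq1 : 1 ≤ q := le_trans (by omega) hq
  have hqR : (1 : ℝ) ≤ q := by exact_mod_cast hq1
  have hq0 : (0 : ℝ) < q := by linarith
  have hL0 : (0 : ℝ) < L := by exact_mod_cast hL
  have hqC : ((m : ℝ) + 1) * C ≤ q := by
    have h1 := Nat.le_ceil (((m : ℝ) + 1) * C)
    have h2 : (((⌈((m : ℝ) + 1) * C⌉₊ + 1 : ℕ)) : ℝ) ≤ q := by exact_mod_cast hq
    push_cast at h2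
    linarith
  set K := KN k with hKdef
  set A : ℝ := ((q : ℝ) ^ m * L) ^ K * t₀ ^ (2 * K) with hA
  have hA0 : 0 ≤ A := by rw [hA]; positivity
  set t : ℝ := t₀ * (q : ℝ) ^ m with ht
  have htpos : 0 < t := by rw [ht]; positivity
  -- the sets
  let Sj : ℕ → Set (X k) := fun j => {a : X k | t ≤ ‖u (q ^ (m - j) * L) a‖}
  let U : (j : ℕ) → (Fin j → Fin q) → Set (X k) := fun j v =>
    {a : X k | t ≤ ‖u (q ^ (m - j) * L) (Ch q (List.ofFn (fun i => ((v i : Fin q) : ℕ))) a)‖}
  have hsub : Etop k q m L t ⊆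
      ⋃ j ∈ range (m + 1), ⋃ v ∈ (univ : Finset (Fin j → Fin q)), U j v := by
    rintro a ⟨c, hc, hb, hta⟩
    rw [Set.mem_iUnion₂]
    refine ⟨c.length, mem_range.2 (by omega), ?_⟩
    rw [Set.mem_iUnion₂]
    refine ⟨fun i => ⟨c.get i, hb _ (List.get_mem c i)⟩, mem_univ _, ?_⟩
    show t ≤ ‖u (q ^ (m - c.length) * L) (Ch q (List.ofFn (fun i => c.get i)) a)‖
    rw [List.ofFn_get]
    exact hta
  have hvol : volume.real (Etop k q m L t) ≤
      ∑ j ∈ range (m + 1), (q : ℝ) ^ j * volume.real (Sj j) := by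
    refine (measureReal_mono hsub (measure_ne_top _ _)).trans ?_
    refine (measureReal_biUnion_finset_le _ _).trans (sum_le_sum fun j _ => ?_)
    refine (measureReal_biUnion_finset_le _ _).trans ?_
    have : ∀ v ∈ (univ : Finset (Fin j → Fin q)), volume.real (U j v) = volume.real (Sj j) :=
      fun v _ => vol_ch hMP k q _ hq1 _ t
    rw [sum_congr rfl this, sum_const, nsmul_eq_mul]
    simp
  have hstep : ∀ j ∈ range (m + 1), A * ((q : ℝ) ^ j * volume.real (Sj j)) ≤ C / (q : ℝ) ^ 4 := by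
    intro j hj
    have hjm : j ≤ m := by have := mem_range.1 hj; omega
    have hN1 : 1 ≤ q ^ (m - j) * L := Nat.succ_le_of_lt (by positivity)
    have h1 := hC (q ^ (m - j) * L) t hN1 htpos
    set N : ℝ := ((q ^ (m - j) * L : ℕ) : ℝ) with hN
    have hNval : N = (q : ℝ) ^ (m - j) * L := by rw [hN]; push_cast; ring
    have hN0 : 0 < N := by rw [hNval]; positivity
    have hqq : (q : ℝ) ^ (m - j) * (q : ℝ) ^ j = (q : ℝ) ^ m := by
      rw [← pow_add]; congr 1; omega
    -- the right side is at most `C q`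
    have h2 : (N * t ^ 2) ^ θ ≤ (q : ℝ) := by
      have h3 : N * t ^ 2 ≤ (q : ℝ) ^ (|D| + 2 * m + 3) := by
        have h4 : N * t ^ 2 ≤ ((q : ℝ) ^ m * L) * t₀ ^ 2 * (q : ℝ) ^ (2 * m) := by
          rw [hNval, ht]
          have h5 : (q : ℝ) ^ (m - j) ≤ (q : ℝ) ^ m := pow_le_pow_right₀ hqR (by omega)
          have e1 : (q : ℝ) ^ (m - j) * L * (t₀ * (q : ℝ) ^ m) ^ 2 =
              (q : ℝ) ^ (m - j) * (L * t₀ ^ 2 * (q : ℝ) ^ (2 * m)) := by ring
          have e2 : (q : ℝ) ^ m * L * t₀ ^ 2 * (q : ℝ) ^ (2 * m) =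
              (q : ℝ) ^ m * (L * t₀ ^ 2 * (q : ℝ) ^ (2 * m)) := by ring
          rw [e1, e2]
          exact mul_le_mul_of_nonneg_right h5 (by positivity)
        calc N * t ^ 2 ≤ ((q : ℝ) ^ m * L) * t₀ ^ 2 * (q : ℝ) ^ (2 * m) := h4
          _ ≤ (q : ℝ) ^ (D + 1) * (q : ℝ) ^ (2 * m) :=
              mul_le_mul_of_nonneg_right hup (by positivity)
          _ = (q : ℝ) ^ (D + 1 + (2 * m : ℕ)) := by
              rw [Real.rpow_add hq0 (D + 1) ((2 * m : ℕ) : ℝ), Real.rpow_natCast]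
          _ ≤ (q : ℝ) ^ (|D| + 2 * m + 3) := by
              refine Real.rpow_le_rpow_of_exponent_le hqR ?_
              have := le_abs_self D
              push_cast
              linarith
      calc (N * t ^ 2) ^ θ ≤ ((q : ℝ) ^ (|D| + 2 * m + 3)) ^ θ :=
            Real.rpow_le_rpow (by positivity) h3 hθ0.le
        _ = (q : ℝ) ^ ((|D| + 2 * m + 3) * θ) := by rw [Real.rpow_mul hq0.le]
        _ = q := by
            rw [hθ, mul_one_div_cancel hden.ne', Real.rpow_one]
    have h6 : N ^ K * t ^ (2 * K) * volume.real (Sj j) ≤ C * q :=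
      h1.trans (mul_le_mul_of_nonneg_left h2 (by linarith))
    -- change of variables
    have h7 : A * (q : ℝ) ^ (2 * K * m) = N ^ K * t ^ (2 * K) * (q : ℝ) ^ (j * K) := by
      rw [hA, hNval, ht, ← hqq]
      rw [mul_pow, mul_pow, mul_pow, mul_pow, hqq]
      rw [← pow_mul, ← pow_mul, ← pow_mul]
      have e3 : (q : ℝ) ^ (2 * K * m) = (q : ℝ) ^ (m * (2 * K)) := by congr 1; ring
      rw [e3]
      ring
    have h8 : A * ((q : ℝ) ^ j * volume.real (Sj j)) * (q : ℝ) ^ 4 * (q : ℝ) ^ (2 * K * m) ≤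
        C * (q : ℝ) ^ (2 * K * m) := by
      have e4 : A * ((q : ℝ) ^ j * volume.real (Sj j)) * (q : ℝ) ^ 4 * (q : ℝ) ^ (2 * K * m) =
          (A * (q : ℝ) ^ (2 * K * m)) * volume.real (Sj j) * ((q : ℝ) ^ j * (q : ℝ) ^ 4) := by ring
      rw [e4, h7]
      calc N ^ K * t ^ (2 * K) * (q : ℝ) ^ (j * K) * volume.real (Sj j) *
            ((q : ℝ) ^ j * (q : ℝ) ^ 4)
          = (N ^ K * t ^ (2 * K) * volume.real (Sj j)) *
            ((q : ℝ) ^ (j * K) * ((q : ℝ) ^ j * (q : ℝ) ^ 4)) := by ring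
        _ ≤ (C * q) * ((q : ℝ) ^ (j * K) * ((q : ℝ) ^ j * (q : ℝ) ^ 4)) :=
            mul_le_mul_of_nonneg_right h6 (by positivity)
        _ = C * (q : ℝ) ^ (j * K + j + 5) := by ring
        _ ≤ C * (q : ℝ) ^ (2 * K * m) := by
            refine mul_le_mul_of_nonneg_left (pow_le_pow_right₀ hqR ?_) (by linarith)
            have i1 : j * K ≤ m * K := Nat.mul_le_mul_right K hjm
            have i2 : m * 6 ≤ m * K := Nat.mul_le_mul_left m hK
            have i3 : 2 * K * m = m * K + m * K := by ring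
            omega
    have h9 : A * ((q : ℝ) ^ j * volume.real (Sj j)) * (q : ℝ) ^ 4 ≤ C :=
      le_of_mul_le_mul_right h8 (by positivity)
    rw [le_div_iff₀ (by positivity)]
    exact h9
  calc A * volume.real (Etop k q m L t)
      ≤ A * ∑ j ∈ range (m + 1), (q : ℝ) ^ j * volume.real (Sj j) :=
        mul_le_mul_of_nonneg_left hvol hA0
    _ = ∑ j ∈ range (m + 1), A * ((q : ℝ) ^ j * volume.real (Sj j)) := by rw [mul_sum]
    _ ≤ ∑ _j ∈ range (m + 1), C / (q : ℝ) ^ 4 := sum_le_sum hstep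
    _ = ((m : ℝ) + 1) * C / (q : ℝ) ^ 4 := by
        rw [sum_const, card_range, nsmul_eq_mul]; push_cast; ring
    _ ≤ 1 / (q : ℝ) := by
        rw [div_le_div_iff₀ (by positivity) hq0]
        have h10 : (q : ℝ) ≤ (q : ℝ) ^ 3 := le_self_pow₀ hqR (by norm_num)
        nlinarith [hqC, h10, hq0]

end Pool.Agent.H91.CLV
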