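import Pool.Agent.H24.CL.Targets

/-!
# Row O2 of the board clv (helper91): the step with the bound of Johnson
-/

set_option autoImplicit false

open Finset MeasureTheory

namespace Pool.Agent.H91.CLV

open Pool.Agent.H24.CL

theorem pf_O2 (hFB : T_FB) (hJO : T_JO) : T_O2 := by
  intro q _ hq A0 A1 kap n F E R S hO hE
  classical
  have hF : 0 ≤ F := zero_le_one.trans hO.hF
  have hn : 0 < n := lt_of_lt_of_le zero_lt_one hO.hn
  obtain ⟨hfb, -⟩ := hFB q hq A0 A1 kap n F E R S hO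
  have hjo := hJO q hq A0 A1 kap n F E R S hO hE
  set Z : ℝ := 4 * ((q : ℝ) * min 1 (R / n)) with hZ
  set W3 : Finset (V3 q) := A0.image (fun w => w.1) with hW3
  let Y2 : V3 q → Finset (V3 q) := fun w3 => (A0.filter (fun w => w.1 = w3)).image (fun w => w.2.1)
  let Y1 : V3 q → V3 q → Finset (V3 q) := fun w3 w2 =>
    (A0.filter (fun w => w.1 = w3 ∧ w.2.1 = w2)).image (fun w => w.2.2)
  -- the points of `A0` are counted by fibres
  have hcard : A0.card ≤ ∑ w3 ∈ W3, ∑ w2 ∈ Y2 w3, (Y1 w3 w2).card := by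
    have hsub : A0 ⊆ W3.biUnion (fun w3 => (Y2 w3).biUnion
        (fun w2 => (Y1 w3 w2).image (fun w1 => (w3, w2, w1)))) := by
      intro w hw
      rw [mem_biUnion]
      refine ⟨w.1, mem_image.2 ⟨w, hw, rfl⟩, ?_⟩
      rw [mem_biUnion]
      refine ⟨w.2.1, mem_image.2 ⟨w, mem_filter.2 ⟨hw, rfl⟩, rfl⟩, ?_⟩
      exact mem_image.2 ⟨w.2.2, mem_image.2 ⟨w, mem_filter.2 ⟨hw, rfl, rfl⟩, rfl⟩, rfl⟩
    refine (card_le_card hsub).trans (card_biUnion_le.trans (sum_le_sum fun w3 _ => ?_))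
    exact card_biUnion_le.trans (sum_le_sum fun w2 _ => card_image_le)
  have hcardR : (A0.card : ℝ) ≤ ∑ w3 ∈ W3, ∑ w2 ∈ Y2 w3, ((Y1 w3 w2).card : ℝ) := by
    exact_mod_cast hcard
  have h1 : ∀ w3 w2, ((Y1 w3 w2).card : ℝ) ≤ F := by
    intro w3 w2
    refine hO.h1 w3 w2 (Y1 w3 w2) ?_
    intro w1 hw1
    obtain ⟨w, hw, rfl⟩ := mem_image.1 hw1
    obtain ⟨hw', h₁, h₂⟩ := mem_filter.1 hw
    rw [← h₁, ← h₂]
    exact hw'
  have hA : (A0.card : ℝ) ≤ F * ∑ w3 ∈ W3, ((Y2 w3).card : ℝ) := by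
    refine hcardR.trans ?_
    rw [mul_sum]
    refine sum_le_sum fun w3 _ => ?_
    calc ∑ w2 ∈ Y2 w3, ((Y1 w3 w2).card : ℝ) ≤ ∑ _w2 ∈ Y2 w3, F := sum_le_sum fun w2 _ => h1 w3 w2
      _ = F * ((Y2 w3).card : ℝ) := by rw [sum_const, nsmul_eq_mul, mul_comm]
  have h2 : ∀ w3, n * ((Y2 w3).card : ℝ) ≤ 2 * ∑ b : ZMod q,
      (((univ : Finset (ZMod q)).filter fun t => (Zv w3 b, Zw w3 b, t) ∈ A1 b).card : ℝ) := by
    intro w3
    refine hjo w3 (Y2 w3) ?_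
    intro w2 hw2
    obtain ⟨w, hw, rfl⟩ := mem_image.1 hw2
    obtain ⟨hw', h₁⟩ := mem_filter.1 hw
    rw [← h₁]
    exact ⟨w.2.2, hw'⟩
  -- exchange of summation
  have h3 : ∀ b : ZMod q, ∑ w3 ∈ W3,
      (((univ : Finset (ZMod q)).filter fun t => (Zv w3 b, Zw w3 b, t) ∈ A1 b).card : ℝ) ≤
      Z * ((A1 b).card : ℝ) := by
    intro b
    have e1 : ∀ w3 : V3 q,
        (((univ : Finset (ZMod q)).filter fun t => (Zv w3 b, Zw w3 b, t) ∈ A1 b).card : ℝ) ≤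
        ∑ v ∈ A1 b, if Zv w3 b = v.1 ∧ Zw w3 b = v.2.1 then (1 : ℝ) else 0 := by
      intro w3
      rw [← sum_filter, sum_const, nsmul_eq_mul, mul_one]
      norm_cast
      refine card_le_card_of_injOn (fun t => (Zv w3 b, Zw w3 b, t)) ?_ ?_
      · intro t ht
        have ht' := (mem_filter.1 (by simpa using ht : t ∈ (univ : Finset (ZMod q)).filter
          fun t => (Zv w3 b, Zw w3 b, t) ∈ A1 b)).2
        exact mem_coe.2 (mem_filter.2 ⟨ht', rfl, rfl⟩)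
      · intro t _ t' _ h
        simpa using h
    calc ∑ w3 ∈ W3,
        (((univ : Finset (ZMod q)).filter fun t => (Zv w3 b, Zw w3 b, t) ∈ A1 b).card : ℝ)
        ≤ ∑ w3 ∈ W3, ∑ v ∈ A1 b, if Zv w3 b = v.1 ∧ Zw w3 b = v.2.1 then (1 : ℝ) else 0 :=
          sum_le_sum fun w3 _ => e1 w3
      _ = ∑ v ∈ A1 b, ∑ w3 ∈ W3, if Zv w3 b = v.1 ∧ Zw w3 b = v.2.1 then (1 : ℝ) else 0 :=
          sum_comm
      _ ≤ ∑ _v ∈ A1 b, Z := by
          refine sum_le_sum fun v _ => ?_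
          rw [← sum_filter, sum_const, nsmul_eq_mul, mul_one]
          refine hfb b v.1 v.2.1 _ ?_
          intro w3 hw3
          obtain ⟨hw3, hv⟩ := mem_filter.1 hw3
          obtain ⟨w, hw, rfl⟩ := mem_image.1 hw3
          exact ⟨⟨w.2.1, w.2.2, hw⟩, hv⟩
      _ = Z * ((A1 b).card : ℝ) := by rw [sum_const, nsmul_eq_mul, mul_comm]
  calc n * (A0.card : ℝ) ≤ n * (F * ∑ w3 ∈ W3, ((Y2 w3).card : ℝ)) :=
        mul_le_mul_of_nonneg_left hA hn.le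
    _ = F * ∑ w3 ∈ W3, n * ((Y2 w3).card : ℝ) := by rw [← mul_sum]; ring
    _ ≤ F * ∑ w3 ∈ W3, (2 * ∑ b : ZMod q,
        (((univ : Finset (ZMod q)).filter fun t => (Zv w3 b, Zw w3 b, t) ∈ A1 b).card : ℝ)) :=
        mul_le_mul_of_nonneg_left (sum_le_sum fun w3 _ => h2 w3) hF
    _ = F * (2 * ∑ b : ZMod q, ∑ w3 ∈ W3,
        (((univ : Finset (ZMod q)).filter fun t => (Zv w3 b, Zw w3 b, t) ∈ A1 b).card : ℝ)) := by
        rw [← mul_sum, sum_comm]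
    _ ≤ F * (2 * ∑ b : ZMod q, Z * ((A1 b).card : ℝ)) :=
        mul_le_mul_of_nonneg_left (mul_le_mul_of_nonneg_left (sum_le_sum fun b _ => h3 b)
          zero_le_two) hF
    _ = 8 * F * (q * min 1 (R / n)) * ∑ b, ((A1 b).card : ℝ) := by
        rw [← mul_sum, hZ]; ring

end Pool.Agent.H91.CLV
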